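import Pool.Agent.H51.Poinc.Quo

/-!
# No finite quotient of a toric pair has the Poincare homology sphere as dual complex

The dual complex of a toric pair `(T, ∂T)` of dimension 4 is the sphere `(N ⊗ ℝ ∖ 0) / ℝ_{>0}`,
`N = ℤ⁴` the lattice of one-parameter subgroups.  A finite group of automorphisms of the pair acts
on it through a finite subgroup `G` of `GL(N) = GL(4, ℤ)`, and the dual complex of the quotient pair
is the quotient of this sphere by `G`.  The theorem says that this quotient is never the Poincare
homology sphere.  It also covers the finite quotients of the products `T × Z`, `Z` Calabi-Yau.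
-/

open scoped Quaternion MatrixGroups

namespace Pool.Agent.Results.MP_9d20d8_ag.NoToricQuotient

theorem result (G : Subgroup (GL (Fin 4) ℤ)) [Finite G] (Γ : Subgroup (unitary ℍ[ℝ]))
    (hΓ : Nonempty (Γ ≃* Matrix.SpecialLinearGroup (Fin 2) (ZMod 5))) :
    IsEmpty (Quotient (Pool.Agent.H51.Poinc.rel G) ≃ₜ (unitary ℍ[ℝ] ⧸ Γ)) :=
  Pool.Agent.H51.Poinc.main G Γ hΓ.some

end Pool.Agent.Results.MP_9d20d8_ag.NoToricQuotient
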